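import Mathlib
import Pool.Agent.Helper40.Nm.Goals

/-!
# MP_f619a5_ag, packet ARF: the arithmetic core
-/

set_option autoImplicit false

open CategoryTheory AlgebraicGeometry Limits TensorProduct

namespace Pool.Agent.Helper61.Nm

open Pool.Agent.Helper40.Nm

section General

variable {G C : Type} [Group G] [CommGroup C] [MulDistribMulAction G C] {g : ℕ}
  (act : G →* AddMonoid.End (Lat g))

theorem tr_mul (γ : G) (f f' : Multiplicative (Lat g) →* C) :
    tr act γ (f * f') = tr act γ f * tr act γ f' := by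
  ext x
  simp [tr, smul_mul']

theorem tr_one (γ : G) : tr act γ (1 : Multiplicative (Lat g) →* C) = 1 := by
  ext x
  simp [tr]

theorem tr_apply (γ : G) (f : Multiplicative (Lat g) →* C) (x : Multiplicative (Lat g)) :
    tr act γ f x = γ • f (Multiplicative.ofAdd (act γ⁻¹ (Multiplicative.toAdd x))) := rfl

theorem act_mul_apply (γ δ : G) (x : Lat g) : act (γ * δ) x = act γ (act δ x) := by
  rw [map_mul]; rfl

theorem act_inv_apply (γ : G) (x : Lat g) : act γ (act γ⁻¹ x) = x := by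
  rw [← act_mul_apply, mul_inv_cancel, map_one]; rfl

theorem act_inv_apply' (γ : G) (x : Lat g) : act γ⁻¹ (act γ x) = x := by
  rw [← act_mul_apply, inv_mul_cancel, map_one]; rfl

theorem tr_tr (γ δ : G) (f : Multiplicative (Lat g) →* C) :
    tr act γ (tr act δ f) = tr act (γ * δ) f := by
  refine MonoidHom.ext fun x => ?_
  rw [tr_apply, tr_apply, tr_apply, toAdd_ofAdd, ← act_mul_apply, smul_smul, mul_inv_rev]

/-- `tr` as a homomorphism -/
def trHom (γ : G) : (Multiplicative (Lat g) →* C) →* (Multiplicative (Lat g) →* C) where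
  toFun := tr act γ
  map_one' := tr_one act γ
  map_mul' := tr_mul act γ

variable [Fintype G]

/-- `NT` as a homomorphism -/
noncomputable def NTHom : (Multiplicative (Lat g) →* C) →* (Multiplicative (Lat g) →* C) where
  toFun := NT act
  map_one' := by simp [NT, tr_one]
  map_mul' := by
    intro a b
    simp only [NT, tr_mul, Finset.prod_mul_distrib]

theorem NTHom_apply (f : Multiplicative (Lat g) →* C) : NTHom act f = NT act f := rfl

theorem NT_tr (δ : G) (f : Multiplicative (Lat g) →* C) : NT act (tr act δ f) = NT act f := by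
  simp only [NT, tr_tr]
  exact Fintype.prod_equiv (Equiv.mulRight δ) _ _ (fun _ => rfl)

theorem tr_NT (δ : G) (f : Multiplicative (Lat g) →* C) : tr act δ (NT act f) = NT act f := by
  change trHom act δ (NT act f) = NT act f
  simp only [NT, map_prod]
  change ∏ x, tr act δ (tr act x f) = _
  simp only [tr_tr]
  exact Fintype.prod_equiv (Equiv.mulLeft δ) _ _ (fun _ => rfl)

theorem NT_mem (f : Multiplicative (Lat g) →* C) : NT act f ∈ EqHom act C := by
  intro γ x
  have h := DFunLike.congr_fun (tr_NT act γ f) (Multiplicative.ofAdd (act γ x))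
  rw [tr_apply, toAdd_ofAdd, act_inv_apply'] at h
  exact h

/-- the norm with values in the group of equivariant homomorphisms -/
noncomputable def NTP : (Multiplicative (Lat g) →* C) →* EqHom act C :=
  (NTHom act).codRestrict (EqHom act C) (NT_mem act)

theorem NTP_coe (f : Multiplicative (Lat g) →* C) :
    ((NTP act f : EqHom act C) : Multiplicative (Lat g) →* C) = NT act f := rfl

theorem NTP_tr (δ : G) (f : Multiplicative (Lat g) →* C) : NTP act (tr act δ f) = NTP act f :=
  Subtype.ext (NT_tr act δ f)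

/-- the dual action -/
def dl (γ : G) : (Lat g →+ ℤ) →+ (Lat g →+ ℤ) where
  toFun z :=
    { toFun := fun x => z (act γ⁻¹ x)
      map_zero' := by rw [map_zero, map_zero]
      map_add' := fun a b => by rw [map_add, map_add] }
  map_zero' := rfl
  map_add' := fun _ _ => rfl

omit [Fintype G] in
theorem dl_apply (γ : G) (z : Lat g →+ ℤ) (x : Lat g) : dl act γ z x = z (act γ⁻¹ x) := rfl

omit [Fintype G] in
theorem dl_dl (γ δ : G) (z : Lat g →+ ℤ) : dl act γ (dl act δ z) = dl act (γ * δ) z := by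
  refine AddMonoidHom.ext fun x => ?_
  rw [dl_apply, dl_apply, dl_apply, ← act_mul_apply, mul_inv_rev]

omit [Fintype G] in
theorem tr_powHom (δ : G) (w : C) (z : Lat g →+ ℤ) :
    tr act δ (powHom w z) = powHom (δ • w) (dl act δ z) := by
  refine MonoidHom.ext fun x => ?_
  rw [tr_apply]
  simp only [powHom, MonoidHom.coe_mk, OneHom.coe_mk, toAdd_ofAdd, dl_apply]
  exact smul_zpow' _ _ _

omit [Group G] [MulDistribMulAction G C] [Fintype G] in
theorem powHom_add (w : C) (z z' : Lat g →+ ℤ) :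
    powHom w (z + z') = powHom w z * powHom w z' := by
  refine MonoidHom.ext fun x => ?_
  simp only [powHom, MonoidHom.coe_mk, OneHom.coe_mk, MonoidHom.mul_apply, AddMonoidHom.add_apply,
    zpow_add]

omit [Group G] [MulDistribMulAction G C] [Fintype G] in
theorem powHom_zero (w : C) : powHom w (0 : Lat g →+ ℤ) = 1 := by
  refine MonoidHom.ext fun x => ?_
  simp only [powHom, MonoidHom.coe_mk, OneHom.coe_mk, MonoidHom.one_apply, AddMonoidHom.zero_apply,
    zpow_zero]

omit [Group G] [MulDistribMulAction G C] [Fintype G] in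
theorem powHom_mul (w w' : C) (z : Lat g →+ ℤ) :
    powHom (w * w') z = powHom w z * powHom w' z := by
  refine MonoidHom.ext fun x => ?_
  simp only [powHom, MonoidHom.coe_mk, OneHom.coe_mk, MonoidHom.mul_apply, mul_zpow]

/-- `z ↦ [z]` -/
noncomputable def cl (w : C) : Multiplicative (Lat g →+ ℤ) →* EqHom act C where
  toFun z := NTP act (powHom w (Multiplicative.toAdd z))
  map_one' := by rw [toAdd_one, powHom_zero, map_one]
  map_mul' := by
    intro a b
    rw [toAdd_mul, powHom_add, map_mul]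

theorem cl_apply (w : C) (z : Lat g →+ ℤ) :
    cl act w (Multiplicative.ofAdd z) = NTP act (powHom w z) := rfl

/-- `[γ z] = NT (powHom (γ⁻¹ w) z)` -/
theorem cl_dl (w : C) (γ : G) (z : Lat g →+ ℤ) :
    cl act w (Multiplicative.ofAdd (dl act γ z)) = NTP act (powHom (γ⁻¹ • w) z) := by
  rw [cl_apply, ← NTP_tr act γ (powHom (γ⁻¹ • w) z), tr_powHom, smul_inv_smul]

/-- the augmentation-type subgroups -/
def aug (T : Set G) : AddSubgroup (Lat g →+ ℤ) :=
  AddSubgroup.closure {z | ∃ γ ∈ T, ∃ y, z = dl act γ y - y}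

theorem cl_aug (w : C) (T : Set G) (A : Subgroup C) (hT : ∀ γ ∈ T, γ⁻¹ • w / w ∈ A)
    (z : Lat g →+ ℤ) (hz : z ∈ aug act T) :
    ∃ f : Multiplicative (Lat g) →* C, (∀ x, f x ∈ A) ∧
      cl act w (Multiplicative.ofAdd z) = NTP act f := by
  refine AddSubgroup.closure_induction (p := fun z _ => ∃ f : Multiplicative (Lat g) →* C,
    (∀ x, f x ∈ A) ∧ cl act w (Multiplicative.ofAdd z) = NTP act f) ?_ ?_ ?_ ?_ hz
  · rintro z ⟨γ, hγ, y, rfl⟩
    refine ⟨powHom (γ⁻¹ • w / w) y, ?_, ?_⟩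
    · intro x
      exact A.zpow_mem (hT γ hγ) _
    · rw [ofAdd_sub, map_div, cl_dl, cl_apply, ← map_div]
      congr 1
      rw [div_eq_iff_eq_mul, ← powHom_mul, div_mul_cancel]
  · exact ⟨1, fun x => A.one_mem, by rw [ofAdd_zero, map_one, map_one]⟩
  · rintro a b _ _ ⟨f, hf, hf'⟩ ⟨f2, hf2, hf2'⟩
    exact ⟨f * f2, fun x => A.mul_mem (hf x) (hf2 x), by rw [ofAdd_add, map_mul, hf', hf2', map_mul]⟩
  · rintro a _ ⟨f, hf, hf'⟩
    exact ⟨f⁻¹, fun x => A.inv_mem (hf x), by rw [ofAdd_neg, map_inv, hf', map_inv]⟩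

/-! ### Transfer -/

omit [Fintype G] in
theorem aug_mono {T T' : Set G} (h : T ⊆ T') : aug act T ≤ aug act T' := by
  refine AddSubgroup.closure_mono ?_
  rintro z ⟨γ, hγ, y, hy⟩
  exact ⟨γ, h hγ, y, hy⟩

omit [Fintype G] in
theorem dl_sub_mem {T : Set G} {γ : G} (hγ : γ ∈ T) (y : Lat g →+ ℤ) :
    dl act γ y - y ∈ aug act T :=
  AddSubgroup.subset_closure ⟨γ, hγ, y, rfl⟩

/-- the transfer -/
noncomputable def trf (H : Subgroup G) [Fintype (G ⧸ H)] : (Lat g →+ ℤ) →+ (Lat g →+ ℤ) :=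
  ∑ q : G ⧸ H, dl act (q.out)⁻¹

omit [Fintype G] in
theorem trf_apply (H : Subgroup G) [Fintype (G ⧸ H)] (y : Lat g →+ ℤ) :
    trf act H y = ∑ q : G ⧸ H, dl act (q.out)⁻¹ y := by
  rw [trf, AddMonoidHom.finsetSum_apply]

omit [Fintype G] in
theorem out_rel (H : Subgroup G) (γ : G) (q : G ⧸ H) :
    (q.out)⁻¹ * γ * (γ⁻¹ • q : G ⧸ H).out ∈ H := by
  rw [mul_assoc, ← QuotientGroup.eq]
  have h1 : ((q.out : G) : G ⧸ H) = q := QuotientGroup.out_eq' q
  have h2 : (((γ⁻¹ • q : G ⧸ H).out : G) : G ⧸ H) = γ⁻¹ • q := QuotientGroup.out_eq' _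
  have h3 : ((γ * (γ⁻¹ • q : G ⧸ H).out : G) : G ⧸ H) = γ • (((γ⁻¹ • q : G ⧸ H).out : G) : G ⧸ H) :=
    rfl
  rw [h1, h3, h2, smul_inv_smul]

omit [Fintype G] in
theorem trf_aug (H : Subgroup G) [Fintype (G ⧸ H)] (z : Lat g →+ ℤ) (hz : z ∈ aug act Set.univ) :
    trf act H z ∈ aug act (H : Set G) := by
  refine AddSubgroup.closure_induction (p := fun z _ => trf act H z ∈ aug act (H : Set G))
    ?_ ?_ ?_ ?_ hz
  · rintro z ⟨γ, -, y, rfl⟩
    rw [map_sub, trf_apply, trf_apply]
    have h1 : ∑ q : G ⧸ H, dl act (q.out)⁻¹ (dl act γ y) =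
        ∑ q : G ⧸ H, dl act ((q.out)⁻¹ * γ * (γ⁻¹ • q : G ⧸ H).out)
          (dl act ((γ⁻¹ • q : G ⧸ H).out)⁻¹ y) := by
      refine Finset.sum_congr rfl fun q _ => ?_
      rw [dl_dl, dl_dl, mul_inv_cancel_right]
    have h2 : ∑ q : G ⧸ H, dl act (q.out)⁻¹ y =
        ∑ q : G ⧸ H, dl act ((γ⁻¹ • q : G ⧸ H).out)⁻¹ y :=
      (Fintype.sum_equiv (MulAction.toPerm γ⁻¹) _ _ (fun _ => rfl)).symm
    rw [h1, h2, ← Finset.sum_sub_distrib]
    exact AddSubgroup.sum_mem _ fun q _ => dl_sub_mem act (out_rel H γ q) _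
  · rw [map_zero]
    exact AddSubgroup.zero_mem _
  · rintro a b _ _ ha hb
    rw [map_add]
    exact AddSubgroup.add_mem _ ha hb
  · rintro a _ ha
    rw [map_neg]
    exact AddSubgroup.neg_mem _ ha

omit [Fintype G] in
theorem trf_sub (H : Subgroup G) [Fintype (G ⧸ H)] (z : Lat g →+ ℤ) :
    trf act H z - Fintype.card (G ⧸ H) • z ∈ aug act Set.univ := by
  have h : trf act H z - Fintype.card (G ⧸ H) • z = ∑ q : G ⧸ H, (dl act (q.out)⁻¹ z - z) := by
    rw [trf_apply, Finset.sum_sub_distrib, Finset.sum_const, Finset.card_univ]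
  rw [h]
  exact AddSubgroup.sum_mem _ fun q _ => dl_sub_mem act (Set.mem_univ _) _

/-! ### Bases -/

omit [Group G] [MulDistribMulAction G C] [Fintype G] in
theorem hom_eq_prod (f : Multiplicative (Lat g) →* C) (x : Lat g) :
    f (Multiplicative.ofAdd x) =
      ∏ i, f (Multiplicative.ofAdd (Pi.single i 1)) ^ (x i) := by
  have h : x = ∑ i, x i • (Pi.single i (1 : ℤ) : Lat g) := by
    conv_lhs => rw [← Finset.univ_sum_single x]
    refine Finset.sum_congr rfl fun i _ => ?_
    rw [← Pi.single_smul, smul_eq_mul, mul_one]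
  conv_lhs => rw [h]
  rw [ofAdd_sum, map_prod]
  refine Finset.prod_congr rfl fun i _ => ?_
  rw [ofAdd_zsmul, map_zpow]

omit [Group G] [MulDistribMulAction G C] [Fintype G] in
theorem hom_ext_basis {f f' : Multiplicative (Lat g) →* C}
    (h : ∀ i, f (Multiplicative.ofAdd (Pi.single i 1)) =
      f' (Multiplicative.ofAdd (Pi.single i 1))) : f = f' := by
  refine MonoidHom.ext fun x => ?_
  change f (Multiplicative.ofAdd (Multiplicative.toAdd x)) =
    f' (Multiplicative.ofAdd (Multiplicative.toAdd x))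
  rw [hom_eq_prod, hom_eq_prod]
  simp only [h]

omit [Group G] [MulDistribMulAction G C] [Fintype G] in
theorem hom_mem (A : Subgroup C) {f : Multiplicative (Lat g) →* C}
    (h : ∀ i, f (Multiplicative.ofAdd (Pi.single i 1)) ∈ A) (x : Multiplicative (Lat g)) :
    f x ∈ A := by
  change f (Multiplicative.ofAdd (Multiplicative.toAdd x)) ∈ A
  rw [hom_eq_prod]
  exact A.prod_mem fun i _ => A.zpow_mem (h i) _

/-- the pairing with a vector -/
def pair : Lat g →+ (Lat g →+ ℤ) where
  toFun c :=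
    { toFun := fun x => ∑ i, c i * x i
      map_zero' := by simp
      map_add' := by
        intro a b
        simp [mul_add, Finset.sum_add_distrib] }
  map_zero' := by
    refine AddMonoidHom.ext fun x => ?_
    simp
  map_add' := by
    intro a b
    refine AddMonoidHom.ext fun x => ?_
    simp [add_mul, Finset.sum_add_distrib]

theorem pair_single (c : Lat g) (i : Fin g) : pair c (Pi.single i 1) = c i := by
  simp [pair, Pi.single_apply]

/-- the homomorphism with given values on the basis -/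
noncomputable def basisHom (c : Fin g → C) : Multiplicative (Lat g) →* C where
  toFun x := ∏ i, c i ^ (Multiplicative.toAdd x i)
  map_one' := by simp
  map_mul' := by
    intro a b
    simp [zpow_add, Finset.prod_mul_distrib]

omit [Group G] [MulDistribMulAction G C] [Fintype G] in
theorem basisHom_single (c : Fin g → C) (i : Fin g) :
    basisHom c (Multiplicative.ofAdd (Pi.single i 1)) = c i := by
  simp only [basisHom, MonoidHom.coe_mk, OneHom.coe_mk, toAdd_ofAdd]
  rw [Finset.prod_eq_single i]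
  · rw [Pi.single_eq_same, zpow_one]
  · intro j _ hj
    rw [Pi.single_eq_of_ne hj, zpow_zero]
  · intro h
    exact absurd (Finset.mem_univ i) h

end General

section Arith

/-- units of `S` as a subgroup of `Eˣ` -/
def unitsSub (S E : Type) [CommRing S] [Field E] [Algebra S E] : Subgroup Eˣ :=
  (Units.map (algebraMap S E : S →* E)).range

theorem mem_unitsSub {S E : Type} [CommRing S] [Field E] [Algebra S E] (e : Eˣ) :
    e ∈ unitsSub S E ↔ ∃ v : Sˣ, (e : E) = algebraMap S E v := by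
  constructor
  · rintro ⟨v, rfl⟩
    exact ⟨v, rfl⟩
  · rintro ⟨v, hv⟩
    exact ⟨v, Units.ext hv.symm⟩

theorem gal_unif (R : Type) {M S E : Type} [CommRing R] [IsDomain R] [IsDiscreteValuationRing R]
    [Field M] [Algebra R M] [IsFractionRing R M] [Field E] [Algebra M E] [Algebra R E]
    [IsScalarTower R M E] [FiniteDimensional M E] [IsGalois M E]
    [CommRing S] [IsDomain S] [IsDiscreteValuationRing S] [Algebra R S] [Algebra S E]
    [IsScalarTower R S E] [IsIntegralClosure S R E]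
    (γ : E ≃ₐ[M] E) (ϖ : S) (hϖ : Irreducible ϖ) :
    ∃ v : Sˣ, γ (algebraMap S E ϖ) = algebraMap S E ϖ * algebraMap S E v := by
  have h1 : Irreducible (galRestrict R M E S γ ϖ) :=
    (MulEquiv.irreducible_iff (galRestrict R M E S γ)).2 hϖ
  obtain ⟨v, hv⟩ := IsDiscreteValuationRing.associated_of_irreducible S hϖ h1
  refine ⟨v, ?_⟩
  rw [← algebraMap_galRestrict_apply (A := R), ← hv, map_mul]

theorem exists_unif_pow {S E : Type} [Field E]
    [CommRing S] [IsDomain S] [IsDiscreteValuationRing S] [Algebra S E] [IsFractionRing S E]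
    (ϖ : S) (hϖ : Irreducible ϖ) (ϖE : Eˣ) (hE : (ϖE : E) = algebraMap S E ϖ)
    (e : Eˣ) : ∃ n : ℤ, e / ϖE ^ n ∈ unitsSub S E := by
  obtain ⟨a, b, hb, hab⟩ := IsFractionRing.div_surjective (A := S) (e : E)
  have hb0 : b ≠ 0 := nonZeroDivisors.ne_zero hb
  have ha0 : a ≠ 0 := by
    rintro rfl
    rw [map_zero, zero_div] at hab
    exact e.ne_zero hab.symm
  obtain ⟨n, u, hu⟩ := IsDiscreteValuationRing.eq_unit_mul_pow_irreducible ha0 hϖ
  obtain ⟨m, v, hv⟩ := IsDiscreteValuationRing.eq_unit_mul_pow_irreducible hb0 hϖ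
  refine ⟨(n : ℤ) - m, ?_⟩
  rw [mem_unitsSub]
  refine ⟨u * v⁻¹, ?_⟩
  have hw0 : (ϖE : E) ≠ 0 := ϖE.ne_zero
  have hv0 : algebraMap S E v ≠ 0 := by
    rw [Ne, FaithfulSMul.algebraMap_eq_zero_iff]
    exact v.ne_zero
  have hvi : algebraMap S E ((v⁻¹ : Sˣ) : S) = (algebraMap S E v)⁻¹ := by
    rw [← mul_eq_one_iff_eq_inv₀ hv0, ← map_mul, Units.inv_mul, map_one]
  rw [Units.val_div_eq_div_val, Units.val_zpow_eq_zpow_val, ← hab, hu, hv, Units.val_mul, map_mul,
    map_mul, map_mul, map_pow, map_pow, ← hE, hvi, zpow_sub₀ hw0, zpow_natCast, zpow_natCast]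
  field_simp

/-- an element of `M` which is a unit of `S` is a unit of `R` -/
theorem unit_descent {R M S E : Type} [CommRing R] [IsDomain R] [IsDiscreteValuationRing R]
    [Field M] [Algebra R M] [IsFractionRing R M] [Field E] [Algebra M E] [Algebra R E]
    [IsScalarTower R M E]
    [CommRing S] [IsDomain S] [IsDiscreteValuationRing S] [Algebra R S] [Algebra S E]
    [IsScalarTower R S E] [IsIntegralClosure S R E]
    (q : M) (v : Sˣ) (h : algebraMap M E q = algebraMap S E v) :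
    ∃ u : Rˣ, q = algebraMap R M u := by
  have hint : ∀ (x : M) (s : S), algebraMap M E x = algebraMap S E s → ∃ r : R,
      algebraMap R M r = x := by
    intro x s hx
    have h1 : IsIntegral R (algebraMap M E x) := by
      rw [hx]
      exact (IsIntegralClosure.isIntegral R E s).algebraMap
    have h2 : IsIntegral R x :=
      (isIntegral_algebraMap_iff (algebraMap M E).injective).1 h1
    exact IsIntegrallyClosed.isIntegral_iff.1 h2
  have hSE : Function.Injective (algebraMap S E) := IsIntegralClosure.algebraMap_injective S R E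
  have hv0 : algebraMap S E v ≠ 0 := by
    rw [Ne, ← map_zero (algebraMap S E), hSE.eq_iff]
    exact v.ne_zero
  have hq0 : q ≠ 0 := by
    rintro rfl
    rw [map_zero] at h
    exact hv0 h.symm
  obtain ⟨r, hr⟩ := hint q v h
  obtain ⟨r', hr'⟩ := hint q⁻¹ ((v⁻¹ : Sˣ) : S) (by
    rw [map_inv₀, h, eq_comm, ← mul_eq_one_iff_eq_inv₀ hv0, ← map_mul, Units.inv_mul, map_one])
  have h1 : r * r' = 1 := by
    apply IsFractionRing.injective R M
    rw [map_mul, hr, hr', map_one, mul_inv_cancel₀ hq0]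
  exact ⟨⟨r, r', h1, by rw [mul_comm, h1]⟩, hr.symm⟩

theorem norm_unif {R M S E : Type} [CommRing R] [IsDomain R] [IsDiscreteValuationRing R]
    [Field M] [Algebra R M] [IsFractionRing R M] [Field E] [Algebra M E] [Algebra R E]
    [IsScalarTower R M E] [FiniteDimensional M E] [IsGalois M E]
    [CommRing S] [IsDomain S] [IsDiscreteValuationRing S] [Algebra R S] [Algebra S E]
    [IsScalarTower R S E] [IsIntegralClosure S R E] (ϖ : S) (π : R)
    (hϖ : Irreducible ϖ) (hπ : Irreducible π)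
    (hmap : (IsLocalRing.maximalIdeal R).map (algebraMap R S) =
        IsLocalRing.maximalIdeal S ^ Module.finrank M E) :
    ∃ u : Rˣ, Algebra.norm M (algebraMap S E ϖ) = algebraMap R M (u * π) := by
  have hSE : Function.Injective (algebraMap S E) := IsIntegralClosure.algebraMap_injective S R E
  have hcard : Fintype.card (E ≃ₐ[M] E) = Module.finrank M E := by
    rw [← Nat.card_eq_fintype_card]
    exact IsGalois.card_aut_eq_finrank M E
  choose v hv using fun γ : E ≃ₐ[M] E => gal_unif R (M := M) (E := E) γ ϖ hϖ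
  have h1 : algebraMap M E (Algebra.norm M (algebraMap S E ϖ)) =
      algebraMap S E (ϖ ^ Module.finrank M E * ((∏ γ, v γ : Sˣ) : S)) := by
    rw [Algebra.norm_eq_prod_automorphisms]
    simp only [hv]
    rw [Finset.prod_mul_distrib, Finset.prod_const, Finset.card_univ, hcard, map_mul, map_pow,
      Units.coe_prod, map_prod]
  have h2 : Associated (algebraMap R S π) (ϖ ^ Module.finrank M E) := by
    rw [← Ideal.span_singleton_eq_span_singleton, ← Ideal.span_singleton_pow,
      ← hϖ.maximalIdeal_eq, ← hmap, hπ.maximalIdeal_eq, Ideal.map_span, Set.image_singleton]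
  obtain ⟨w, hw⟩ := h2
  have hπ0 : algebraMap R M π ≠ 0 := by
    rw [Ne, FaithfulSMul.algebraMap_eq_zero_iff]
    exact hπ.ne_zero
  have hπE : algebraMap M E (algebraMap R M π) = algebraMap S E (algebraMap R S π) := by
    rw [← IsScalarTower.algebraMap_apply, ← IsScalarTower.algebraMap_apply]
  have hπE0 : algebraMap S E (algebraMap R S π) ≠ 0 := by
    rw [← hπE, Ne, map_eq_zero]
    exact hπ0
  obtain ⟨u, hu⟩ := unit_descent (R := R) (M := M) (S := S) (E := E)
    (Algebra.norm M (algebraMap S E ϖ) / algebraMap R M π) (w * ∏ γ, v γ) (by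
      rw [map_div₀, h1, hπE, div_eq_iff hπE0, ← map_mul, ← hw, Units.val_mul]
      ring_nf)
  refine ⟨u, ?_⟩
  rw [div_eq_iff hπ0] at hu
  rw [hu, map_mul]

/-- units of `S` congruent to `1` modulo `ϖ'` as a subgroup of `Eˣ` -/
def unitsOne (S E : Type) [CommRing S] [Field E] [Algebra S E] (b : S) : Subgroup Eˣ :=
  (MonoidHom.ker (Units.map (Ideal.Quotient.mk (Ideal.span {b}) : S →* S ⧸ Ideal.span {b}))).map
    (Units.map (algebraMap S E : S →* E))

theorem mem_unitsOne_of {S E : Type} [CommRing S] [Field E] [Algebra S E] (b : S) (e : Eˣ)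
    (v : Sˣ) (s : S) (hv : (v : S) = 1 + b * s) (he : (e : E) = algebraMap S E v) :
    e ∈ unitsOne S E b := by
  refine ⟨v, ?_, Units.ext he.symm⟩
  rw [SetLike.mem_coe, MonoidHom.mem_ker]
  apply Units.ext
  change Ideal.Quotient.mk (Ideal.span {b}) (v : S) = 1
  rw [← map_one (Ideal.Quotient.mk (Ideal.span {b})), Ideal.Quotient.eq, hv, add_sub_cancel_left]
  exact Ideal.mul_mem_right _ _ (Ideal.mem_span_singleton_self b)

theorem of_mem_unitsOne {S E : Type} [CommRing S] [Field E] [Algebra S E] {b : S} {e : Eˣ}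
    (h : e ∈ unitsOne S E b) : ∃ s : S, (e : E) = algebraMap S E (1 + b * s) := by
  obtain ⟨v, hv, rfl⟩ := h
  rw [SetLike.mem_coe, MonoidHom.mem_ker] at hv
  have h1 : Ideal.Quotient.mk (Ideal.span {b}) (v : S) = 1 := congrArg Units.val hv
  rw [← map_one (Ideal.Quotient.mk (Ideal.span {b})), Ideal.Quotient.eq,
    Ideal.mem_span_singleton'] at h1
  obtain ⟨s, hs⟩ := h1
  refine ⟨s, ?_⟩
  change algebraMap S E (v : S) = _
  rw [mul_comm b s, hs, add_sub_cancel]

theorem smul_units_val {M E : Type} [Field M] [Field E] [Algebra M E] (γ : E ≃ₐ[M] E) (e : Eˣ) :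
    ((γ • e : Eˣ) : E) = γ (e : E) := rfl

theorem grp_id {P : Type} [CommGroup P] (q Z Z' : P) (N L : ℕ) (m' k : ℤ)
    (hk : (N : ℤ) * m' - 1 = (L : ℤ) * k) :
    q / Z' ^ m' = (q / Z) * ((Z' / Z ^ N) ^ m')⁻¹ * (((Z ^ L) ^ k)⁻¹) := by
  have h7 : (Z ^ L) ^ k = Z ^ ((N : ℤ) * m') * Z⁻¹ := by
    rw [← zpow_natCast, ← zpow_mul, ← hk, zpow_sub, zpow_one]
  have h8 : (Z' / Z ^ N) ^ m' = Z' ^ m' * (Z ^ ((N : ℤ) * m'))⁻¹ := by
    rw [div_zpow, ← zpow_natCast Z N, ← zpow_mul, div_eq_mul_inv]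
  rw [h7, h8, mul_assoc, ← mul_inv]
  have h9 : Z' ^ m' * (Z ^ ((N : ℤ) * m'))⁻¹ * (Z ^ ((N : ℤ) * m') * Z⁻¹) = Z' ^ m' * Z⁻¹ := by
    rw [mul_assoc, inv_mul_cancel_left]
  rw [h9, mul_inv, inv_inv, div_eq_mul_inv, div_eq_mul_inv, mul_comm (Z' ^ m')⁻¹ Z, mul_assoc,
    inv_mul_cancel_left]

/-- Packet `ARF`. -/
theorem arf : SURJ → NTZ → LAT → FGA → DIVU → EXT → ARF := by
  intro hSURJ hNTZ hLAT hFGA hDIVU hEXT
  intro R M S E _ _ _ _ _ _ _ _ _ _ _ _ _ _ _ _ _ _ _ _ _ g act ϖ π P0 P1 hϖ hπ hram h10 H1 H2 H3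
  obtain ⟨hfrac, hfin, hfree, hdvr, hcomp, hacl, hloc, hres, hmap⟩ := hEXT R M S E
  have hSE : Function.Injective (algebraMap S E) := IsIntegralClosure.algebraMap_injective S R E
  have hw0 : algebraMap S E ϖ ≠ 0 := by
    rw [Ne, ← map_zero (algebraMap S E), hSE.eq_iff]
    exact hϖ.ne_zero
  obtain ⟨ϖE, hE⟩ : ∃ e : Eˣ, (e : E) = algebraMap S E ϖ := ⟨Units.mk0 _ hw0, rfl⟩
  obtain ⟨u, hu⟩ := norm_unif (R := R) (M := M) (S := S) (E := E) ϖ π hϖ hπ hmap
  have hγ0 : ∀ γ : E ≃ₐ[M] E, γ • ϖE / ϖE ∈ unitsSub S E := by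
    intro γ
    obtain ⟨v, hv⟩ := gal_unif R (M := M) (E := E) γ ϖ hϖ
    rw [mem_unitsSub]
    refine ⟨v, ?_⟩
    rw [Units.val_div_eq_div_val, smul_units_val, hE, hv, mul_div_cancel_left₀ _ hw0]
  have hdec : ∀ t : EqHom act Eˣ, ∃ c : Lat g,
      t / cl act ϖE (Multiplicative.ofAdd (pair c)) ∈ P0 := by
    intro t
    obtain ⟨f, hf⟩ := hSURJ R M E g act t t.2
    choose n hn using fun i => exists_unif_pow ϖ hϖ ϖE hE (f (Multiplicative.ofAdd (Pi.single i 1)))
    refine ⟨n, ?_⟩
    have h1 : t = NTP act f := Subtype.ext hf.symm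
    rw [h1, cl_apply, ← map_div]
    refine H1 (f / powHom ϖE (pair n)) _ ?_ (NTP_coe act _)
    intro x
    rw [← mem_unitsSub]
    refine hom_mem (unitsSub S E) (fun i => ?_) x
    have h2 : powHom ϖE (pair n) (Multiplicative.ofAdd (Pi.single i 1)) = ϖE ^ n i := by
      simp only [powHom, MonoidHom.coe_mk, OneHom.coe_mk, toAdd_ofAdd, pair_single]
    rw [MonoidHom.div_apply, h2]
    exact hn i
  have haug0 : ∀ z ∈ aug act (Set.univ : Set (E ≃ₐ[M] E)),
      cl act ϖE (Multiplicative.ofAdd z) ∈ P0 := by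
    intro z hz
    obtain ⟨f, hf, hf'⟩ := cl_aug act ϖE Set.univ (unitsSub S E) (fun γ _ => hγ0 γ⁻¹) z hz
    rw [hf']
    exact H1 f _ (fun x => (mem_unitsSub _).1 (hf x)) (NTP_coe act f)
  have hconv : ∀ z : Lat g →+ ℤ, cl act ϖE (Multiplicative.ofAdd z) ∈ P0 →
      z ∈ aug act (Set.univ : Set (E ≃ₐ[M] E)) := by
    intro z hz
    obtain ⟨y, hy⟩ := hLAT (E ≃ₐ[M] E) g act z (by
      intro χ a ha hχ
      choose η hη using hχ
      obtain ⟨hmem, τ, hτ, hval⟩ := hNTZ M E g act χ a η z ϖE ha hη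
      refine H3 χ a η (cl act ϖE (Multiplicative.ofAdd z)) τ (u ^ (z χ)) (z χ) ha hη hz hτ ?_
      have hun : algebraMap R M ((u ^ (z χ) : Rˣ) : R) = (algebraMap R M u) ^ (z χ) := by
        have h3 := congrArg Units.val (map_zpow (Units.map (algebraMap R M : R →* M)) u (z χ))
        rw [Units.val_zpow_eq_zpow_val] at h3
        exact h3
      rw [hun, ← mul_zpow, ← map_mul, ← hu, map_zpow₀, ← hE]
      exact hval)
    have h : z = ∑ γ, (dl act γ (y γ) - y γ) := by
      refine AddMonoidHom.ext fun x => ?_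
      rw [AddMonoidHom.finsetSum_apply, hy x]
      rfl
    rw [h]
    exact AddSubgroup.sum_mem _ fun γ _ => dl_sub_mem act (Set.mem_univ _) _
  refine hFGA (EqHom act Eˣ) P0 P1 h10 ?_ ?_
  · have : AddGroup.FG (Lat g) := Module.Finite.iff_addGroup_fg.1 inferInstance
    have : Group.FG (Multiplicative (Lat g)) := inferInstance
    refine Group.fg_of_surjective (f := (QuotientGroup.mk' P0).comp
      ((cl act ϖE).comp (AddMonoidHom.toMultiplicative pair))) ?_
    intro q
    obtain ⟨t, rfl⟩ := QuotientGroup.mk'_surjective P0 q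
    obtain ⟨c, hc⟩ := hdec t
    refine ⟨Multiplicative.ofAdd c, ?_⟩
    change ((cl act ϖE (Multiplicative.ofAdd (pair c)) : EqHom act Eˣ) : EqHom act Eˣ ⧸ P0) =
      (t : EqHom act Eˣ ⧸ P0)
    exact (QuotientGroup.eq_iff_div_mem.2 hc).symm
  · intro l j q hl hq
    obtain ⟨c, hc⟩ := hdec q
    have hz : (l ^ j) • (pair c : Lat g →+ ℤ) ∈ aug act (Set.univ : Set (E ≃ₐ[M] E)) := by
      apply hconv
      rw [ofAdd_nsmul, map_pow]
      have h1 := P0.div_mem hq (P0.pow_mem hc (l^j))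
      rwa [div_pow, div_div_cancel] at h1
    by_cases hlk : (l : IsLocalRing.ResidueField R) = 0
    · have : Fact l.Prime := ⟨hl⟩
      have : CharP (IsLocalRing.ResidueField R) l := (CharP.charP_iff_prime_eq_zero hl).2 hlk
      have : ExpChar (IsLocalRing.ResidueField R) l := ExpChar.prime hl
      have hexp : ringExpChar (IsLocalRing.ResidueField R) = l := ringExpChar.eq _ l
      obtain ⟨H⟩ : Nonempty (Sylow l (E ≃ₐ[M] E)) := inferInstance
      have : Fintype ((E ≃ₐ[M] E) ⧸ (H : Subgroup (E ≃ₐ[M] E))) := Fintype.ofFinite _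
      have hndvd : ¬ l ∣ Fintype.card ((E ≃ₐ[M] E) ⧸ (H : Subgroup (E ≃ₐ[M] E))) := by
        rw [← Nat.card_eq_fintype_card]
        exact H.not_dvd_index
      have hγ1 : ∀ γ ∈ ((H : Subgroup (E ≃ₐ[M] E)) : Set (E ≃ₐ[M] E)),
          γ⁻¹ • ϖE / ϖE ∈ unitsOne S E (algebraMap R S π) := by
        intro γ hγ
        obtain ⟨k, hk⟩ := H.2 ⟨γ, hγ⟩
        have hk' : γ ^ (l ^ k) = 1 := congrArg Subtype.val hk
        have hk2 : (γ⁻¹) ^ (l ^ k) = 1 := by rw [inv_pow, hk', inv_one]
        rw [hexp] at hram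
        obtain ⟨s, hs⟩ := hram γ⁻¹ k π hk2 hπ
        obtain ⟨v, hv⟩ := gal_unif R (M := M) (E := E) γ⁻¹ ϖ hϖ
        refine mem_unitsOne_of _ _ v s ?_ ?_
        · rw [hv, map_mul] at hs
          exact hSE (mul_left_cancel₀ hw0 hs)
        · rw [Units.val_div_eq_div_val, smul_units_val, hE, hv, mul_div_cancel_left₀ _ hw0]
      have h1 : (l ^ j) • trf act (H : Subgroup (E ≃ₐ[M] E)) (pair c) ∈
          aug act ((H : Subgroup (E ≃ₐ[M] E)) : Set (E ≃ₐ[M] E)) := by
        rw [← map_nsmul]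
        exact trf_aug act _ _ hz
      obtain ⟨f, hf, hf'⟩ := cl_aug act ϖE _ _ hγ1 _ h1
      have h2 : cl act ϖE (Multiplicative.ofAdd (trf act (H : Subgroup (E ≃ₐ[M] E)) (pair c))) ^
          (l ^ j) ∈ P1 := by
        rw [← map_pow, ← ofAdd_nsmul, hf']
        exact H2 f _ (fun x => of_mem_unitsOne (hf x)) (NTP_coe act f)
      have h3 := haug0 _ (trf_sub act (H : Subgroup (E ≃ₐ[M] E)) (pair c))
      rw [ofAdd_sub, map_div, ofAdd_nsmul, map_pow] at h3
      set N := Fintype.card ((E ≃ₐ[M] E) ⧸ (H : Subgroup (E ≃ₐ[M] E))) with hN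
      have hcop : Nat.Coprime N (l ^ j) :=
        Nat.Coprime.pow_right _ ((Nat.Prime.coprime_iff_not_dvd hl).2 hndvd).symm
      obtain ⟨m', hm'⟩ : ∃ m' : ℤ, (l ^ j : ℤ) ∣ N * m' - 1 := by
        have h4 : IsCoprime (N : ℤ) (l ^ j : ℤ) := by exact_mod_cast Nat.isCoprime_iff_coprime.2 hcop
        obtain ⟨a, b, hab⟩ := h4
        refine ⟨a, -b, ?_⟩
        linear_combination hab
      obtain ⟨k, hk⟩ := hm'
      set Z := cl act ϖE (Multiplicative.ofAdd (pair c)) with hZ
      set Z' := cl act ϖE (Multiplicative.ofAdd (trf act (H : Subgroup (E ≃ₐ[M] E)) (pair c)))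
        with hZ'
      have hZl : Z ^ (l ^ j) ∈ P0 := by
        have h5 := haug0 _ hz
        rwa [ofAdd_nsmul, map_pow] at h5
      refine ⟨Z' ^ m', ?_, ?_⟩
      · have h6 : q / Z' ^ m' = (q / Z) * ((Z' / Z ^ N) ^ m')⁻¹ * (((Z ^ (l ^ j)) ^ k)⁻¹) := by
          exact grp_id q Z Z' N (l ^ j) m' k (by rw [hk]; push_cast; ring)
        rw [h6]
        exact P0.mul_mem (P0.mul_mem hc (P0.inv_mem (P0.zpow_mem h3 _)))
          (P0.inv_mem (P0.zpow_mem hZl _))
      · have h8 : (Z' ^ m') ^ (l ^ j) = (Z' ^ (l ^ j)) ^ m' := by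
          rw [← zpow_natCast, ← zpow_natCast, ← zpow_mul, ← zpow_mul, mul_comm]
        rw [h8]
        exact P1.zpow_mem h2 _
    · obtain ⟨f, hf, hf'⟩ := cl_aug act ϖE Set.univ (unitsSub S E) (fun γ _ => hγ0 γ⁻¹) _ hz
      have hlS : ((l ^ j : ℕ) : IsLocalRing.ResidueField S) ≠ 0 := by
        rw [Nat.cast_pow]
        apply pow_ne_zero
        have h1 : IsUnit ((l : ℕ) : R) := by
          by_contra h
          apply hlk
          rw [← map_natCast (IsLocalRing.residue R) l]
          exact (IsLocalRing.residue_eq_zero_iff _).2 ((IsLocalRing.mem_maximalIdeal _).2 h)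
        have h2 : IsUnit ((l:ℕ) : S) := by
          have h3 := h1.map (algebraMap R S)
          rwa [map_natCast] at h3
        have h3 := h2.map (IsLocalRing.residue S)
        rw [map_natCast] at h3
        exact h3.ne_zero
      choose v hv using fun i => (mem_unitsSub _).1 (hf (Multiplicative.ofAdd (Pi.single i 1)))
      choose w hw using fun i => hDIVU S (l ^ j) (v i) hlS
      obtain ⟨W, hWdef⟩ : ∃ W : Multiplicative (Lat g) →* Eˣ, W =
        basisHom fun i => Units.map (algebraMap S E : S →* E) (w i) := ⟨_, rfl⟩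
      have hW : W ^ (l^j) = f := hom_ext_basis (fun i => by
        rw [MonoidHom.pow_apply, hWdef, basisHom_single, ← map_pow, hw]
        exact Units.ext (hv i).symm)
      have hWP : NTP act W ∈ P0 := H1 W _ (fun x => (mem_unitsSub _).1
        (hom_mem _ (fun i => by
          rw [hWdef, basisHom_single]
          exact ⟨w i, rfl⟩) x)) (NTP_coe act W)
      refine ⟨cl act ϖE (Multiplicative.ofAdd (pair c)) / NTP act W, ?_, ?_⟩
      · have h6 : q / (cl act ϖE (Multiplicative.ofAdd (pair c)) / NTP act W) =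
            (q / cl act ϖE (Multiplicative.ofAdd (pair c))) * NTP act W := by
          simp only [div_eq_mul_inv, mul_inv, inv_inv, mul_assoc]
        rw [h6]
        exact P0.mul_mem hc hWP
      · rw [div_pow, ← map_pow, ← ofAdd_nsmul, hf', ← map_pow, hW, div_self']
        exact P1.one_mem

end Arith

end Pool.Agent.Helper61.Nm

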